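import Pool.Agent.H.MP_44d715_an.B

namespace Pool.Agent.Results.MP_44d715_an.Yes
open Pool.Agent.H.MP_44d715_an Filter Topology

theorem result :
    (∀ (x : X) (u : U), ∃ y, IsMild x u y) ∧
    (∀ (x : X) (u : U) (y y' : ℝ → X), IsMild x u y → IsMild x u y' → ∀ t, 0 ≤ t → y t = y' t) ∧
    ∃ (V : X → ℝ) (ψ₁ ψ₂ α σ : ℝ → ℝ), Continuous V ∧ (∀ x, 0 ≤ V x) ∧
      ClassKinf ψ₁ ∧ ClassKinf ψ₂ ∧ ClassKinf α ∧ ClassK σ ∧
      (∀ x, ψ₁ ‖x‖ ≤ V x ∧ V x ≤ ψ₂ ‖x‖) ∧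
      ∀ (x : X) (u : U) (y : ℝ → X), IsMild x u y →
        limsup (fun h : ℝ => (((V (y h) - V x) / h : ℝ) : EReal)) (𝓝[>] 0) ≤
          ((-α ‖x‖ + σ ‖u‖ : ℝ) : EReal) := by
  refine ⟨fun x u => ?_, fun x u y y' h h' t ht => ?_, VV bas, _, _, _, _, VV_cont bas,
    fun x => le_trans (by positivity) (VV_ge bas x), pow_Kinf one_pos,
    pow_Kinf (c := 128) (by norm_num), pow_Kinf (c := 8) (by norm_num), (pow_Kinf RR_pos).1,
    fun x => ⟨by simpa using VV_ge bas x, VV_le bas x⟩, fun x u y h => ?_⟩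
  · have : ∀ t : ℝ, ∃ z, 0 ≤ t → Sol bas t x (rep u) z := fun t => by
      by_cases ht : 0 ≤ t
      · obtain ⟨z, hz⟩ := sol_ex bas ht x (rep_good u)
        exact ⟨z, fun _ => hz⟩
      · exact ⟨0, fun h => absurd h ht⟩
    choose y hy using this
    exact ⟨y, (mild_iff x u y).2 hy⟩
  · exact ext_repr bas fun n => by
      rw [(mild_iff x u y).1 h t ht n, (mild_iff x u y').1 h' t ht n]
  · exact VV_dini bas (rep_good u) (rep_le u) ((mild_iff x u y).1 h)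

end Pool.Agent.Results.MP_44d715_an.Yes
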